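import Pool.Agent.H22.HD.Stmts

/-!
# HD, module RIX: change of the index type
-/

set_option autoImplicit false

open MeasureTheory ProbabilityTheory

namespace Pool.Agent.H22.HD

namespace RIX

variable {ι : Type} [Fintype ι] {n : ℕ}

/-- the change of variables -/
def chg (e : ι ≃ Fin n) (y : Fin n → ℝ) : ι → ℝ := fun i => y (e i)

theorem chg_eq (e : ι ≃ Fin n) (y : Fin n → ℝ) :
    (MeasurableEquiv.piCongrLeft (fun _ : ι => ℝ) e.symm) y = chg e y := by
  funext i
  obtain ⟨k, rfl⟩ := e.symm.surjective i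
  rw [MeasurableEquiv.coe_piCongrLeft, Equiv.piCongrLeft_apply_apply]
  simp [chg]

theorem mp (e : ι ≃ Fin n) :
    MeasurePreserving (MeasurableEquiv.piCongrLeft (fun _ : ι => ℝ) e.symm)
      (gam (Fin n)) (gam ι) :=
  measurePreserving_piCongrLeft (fun _ : ι => gaussianReal 0 1) e.symm

theorem mem_TT (e : ι ≃ Fin n) {d : ℕ} {f : (ι → ℝ) → ℝ} (hf : f ∈ TT ι d) :
    (fun y => f (chg e y)) ∈ TT (Fin n) d := by
  unfold TT at hf
  induction hf using Submodule.span_induction with
  | mem x hx =>
    obtain ⟨α, hα, rfl⟩ := hx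
    refine Submodule.subset_span ⟨fun k => α (e.symm k), ?_, ?_⟩
    · rw [Equiv.sum_comp e.symm α]
      exact hα
    · funext y
      rw [← Equiv.prod_comp e]
      simp [chg]
  | zero => exact (TT (Fin n) d).zero_mem
  | add x y _ _ hx hy => exact (TT (Fin n) d).add_mem hx hy
  | smul a x _ hx => exact (TT (Fin n) d).smul_mem a hx

end RIX

open RIX in
theorem rix_thm : RIXStmt := by
  intro ι _ d f0 f p Λ η hc hb hl hv hf he
  classical
  let e : ι ≃ Fin (Fintype.card ι) := Fintype.equivFin ι
  have hmp := mp e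
  refine ⟨Fintype.card ι, fun y => f0 (chg e y), fun y => f (chg e y), ?_, fun y => hb _, ?_, ?_,
    mem_TT e hf, ?_⟩
  · exact hc.comp (contDiff_pi.2 fun i => contDiff_apply ℝ ℝ (e i))
  · intro x y
    have h := hl (chg e x) (chg e y)
    have h2 : ∑ i, (chg e x i - chg e y i) ^ 2 = ∑ i, (x i - y i) ^ 2 :=
      Equiv.sum_comp e (fun k => (x k - y k) ^ 2)
    rw [h2] at h
    exact h
  · have h := hmp.integral_comp (MeasurableEquiv.piCongrLeft (fun _ : ι => ℝ)
      e.symm).measurableEmbedding (fun x => f0 x ^ 2)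
    rw [← h] at hv
    refine hv.trans (le_of_eq ?_)
    refine integral_congr_ae (Filter.Eventually.of_forall fun y => ?_)
    simp only [chg_eq]
  · have h : eLpNorm (fun x => f x - f0 x) (ENNReal.ofReal p) (gam ι) =
        eLpNorm ((fun x => f x - f0 x) ∘
          (MeasurableEquiv.piCongrLeft (fun _ : ι => ℝ) e.symm)) (ENNReal.ofReal p)
          (gam (Fin (Fintype.card ι))) := by
      rw [← hmp.map_eq]
      exact (MeasurableEquiv.piCongrLeft (fun _ : ι => ℝ)
        e.symm).measurableEmbedding.eLpNorm_map_measure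
    rw [h] at he
    refine le_trans (le_of_eq ?_) he
    congr 1
    funext y
    simp only [Function.comp, chg_eq]

end Pool.Agent.H22.HD
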